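import Pool.Agent.Y954.CG.Cell

/-! Midpoint sums of analytic functions: the sum over the cells. -/

set_option autoImplicit false

namespace Pool.Agent.Y954.CG

open Filter Topology Metric Set MeasureTheory
open scoped Real Interval

/-- one cell -/
theorem cell_bound {N h C : ℝ} (hN : 0 < N) (hh : 0 < h) (hC : 0 ≤ C) (hNh : 1 ≤ N * h) (m : ℂ)
    (f : ℂ → ℂ)
    (hf : ∀ u : ℂ, |u.re - m.re| ≤ π / N → |u.im - m.im| ≤ h →
      DifferentiableAt ℂ f u ∧ ‖f u‖ ≤ C) :
    ‖f m - N / (2 * π) * ((∫ x in (-(π / N))..(π / N), f (m + x)) -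
      (Dd h N f (m + (π / N : ℝ)) - Dd h N f (m + (-(π / N) : ℝ))))‖ ≤
      4 * C * Real.exp (-(N * h)) := by
  rw [cell_eq hN hh m f (fun u h1 h2 => (hf u h1 h2).1)]
  obtain ⟨r, hr⟩ : ∃ r : ℝ, r = Real.exp (-(N * h)) := ⟨_, rfl⟩
  have hr0 : 0 < r := by rw [hr]; exact Real.exp_pos _
  have hr1 : r ≤ 1 / 2 := by
    rw [hr, Real.exp_neg]
    have h1 : 2 ≤ Real.exp (N * h) := by
      have := Real.add_one_le_exp (N * h)
      linarith
    rw [one_div]
    exact inv_anti₀ (by norm_num) h1
  have hL0 : 0 < π / N := div_pos Real.pi_pos hN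
  have hre : ∀ e x : ℝ, ((x : ℂ) + e * Complex.I).re = x ∧ ((x : ℂ) + e * Complex.I).im = e := by
    intro e x
    constructor <;> simp
  have hfb : ∀ e : ℝ, |e| ≤ h → ∀ x ∈ Ι (-(π / N)) (π / N), ‖f (m + (x + e * Complex.I))‖ ≤ C := by
    intro e he x hx
    rw [uIoc_of_le (by linarith)] at hx
    apply (hf _ _ _).2
    · rw [Complex.add_re, add_sub_cancel_left, (hre e x).1]
      exact abs_le.2 ⟨hx.1.le, hx.2⟩
    · rw [Complex.add_im, add_sub_cancel_left, (hre e x).2]
      exact he
  have hq : 0 ≤ r / (1 - r) := div_nonneg hr0.le (by linarith)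
  have b1 : ‖∫ x in (-(π / N))..(π / N), f (m + (x + h * Complex.I)) *
      (ee N (x + h * Complex.I) / (1 - ee N (x + h * Complex.I)))‖ ≤
      C * (r / (1 - r)) * |π / N - -(π / N)| := by
    apply intervalIntegral.norm_integral_le_of_norm_le_const
    intro x hx
    rw [norm_mul, norm_div]
    have h1 : ‖ee N (x + h * Complex.I)‖ = r := by
      rw [ee_norm, (hre h x).2, hr]
    have h2 : 1 - r ≤ ‖1 - ee N (x + h * Complex.I)‖ := by
      have := norm_sub_norm_le (1 : ℂ) (ee N (x + h * Complex.I))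
      rw [h1, norm_one] at this
      exact this
    rw [h1]
    apply mul_le_mul (hfb h (by rw [abs_of_pos hh]) x hx) _ (div_nonneg hr0.le (norm_nonneg _)) hC
    exact div_le_div_of_nonneg_left hr0.le (by linarith) h2
  have b2 : ‖∫ x in (-(π / N))..(π / N), f (m + (x + (-h : ℝ) * Complex.I)) *
        (1 / (1 - ee N (x + (-h : ℝ) * Complex.I)))‖ ≤
      C * (r / (1 - r)) * |π / N - -(π / N)| := by
    apply intervalIntegral.norm_integral_le_of_norm_le_const
    intro x hx
    rw [norm_mul, norm_div, norm_one]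
    have h1 : ‖ee N (x + (-h : ℝ) * Complex.I)‖ = r⁻¹ := by
      rw [ee_norm, (hre (-h) x).2, hr, ← Real.exp_neg]
      congr 1
      ring
    have h2 : r⁻¹ - 1 ≤ ‖1 - ee N (x + (-h : ℝ) * Complex.I)‖ := by
      have := norm_sub_norm_le (ee N (x + (-h : ℝ) * Complex.I)) (1 : ℂ)
      rw [h1, norm_one, norm_sub_rev] at this
      exact this
    have h3 : 1 / (r⁻¹ - 1) = r / (1 - r) := by
      have : 1 - r ≠ 0 := by linarith
      field_simp
    have h4 : 0 < r⁻¹ - 1 := by
      have : (2 : ℝ) ≤ r⁻¹ := by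
        have := inv_anti₀ hr0 hr1
        norm_num at this ⊢
        exact this
      linarith
    apply mul_le_mul (hfb (-h) (by rw [abs_neg, abs_of_pos hh]) x hx) _
      (div_nonneg zero_le_one (norm_nonneg _)) hC
    rw [← h3]
    exact div_le_div_of_nonneg_left zero_le_one h4 h2
  rw [norm_mul]
  have b3 : ‖(N : ℂ) / (2 * π)‖ = N / (2 * π) := by
    have : ((N : ℂ) / (2 * π)) = ((N / (2 * π) : ℝ) : ℂ) := by push_cast; rfl
    rw [this, Complex.norm_real, Real.norm_of_nonneg]
    positivity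
  rw [b3]
  have b4 : |π / N - -(π / N)| = 2 * π / N := by
    rw [abs_of_pos (by linarith)]
    ring
  rw [b4] at b1 b2
  rw [← hr]
  calc N / (2 * π) * ‖_‖ ≤ N / (2 * π) * (C * (r / (1 - r)) * (2 * π / N) +
        C * (r / (1 - r)) * (2 * π / N)) := by
        apply mul_le_mul_of_nonneg_left _ (by positivity)
        exact (norm_sub_le _ _).trans (add_le_add b1 b2)
    _ = 2 * C * (r / (1 - r)) := by
        have := Real.pi_ne_zero
        field_simp
        ring
    _ ≤ 4 * C * r := by
        have h5 : r / (1 - r) ≤ 2 * r := by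
          rw [div_le_iff₀ (by linarith)]
          nlinarith
        nlinarith

/-- the sum over the cells -/
theorem sum_bound (h C : ℝ) (N n : ℕ) (a : ℂ) (f : ℂ → ℂ) (hh : 0 < h) (hC : 0 ≤ C)
    (hNh : 1 ≤ N * h)
    (hf : ∀ u : ℂ, a.re ≤ u.re → u.re ≤ a.re + 2 * π * n / N → |u.im - a.im| ≤ h →
      DifferentiableAt ℂ f u ∧ ‖f u‖ ≤ C) :
    ‖∑ j ∈ Finset.range n, f (a + π * (2 * (j : ℂ) + 1) / N) -
      N / (2 * π) * ((∫ x in (0:ℝ)..(2 * π * n / N), f (a + x)) -
      (Dd h N f (a + 2 * π * n / N) - Dd h N f a))‖ ≤ 4 * n * C * Real.exp (-(N * h)) := by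
  have hN : (0 : ℝ) < N := by
    rcases Nat.eq_zero_or_pos N with h0 | h0
    · rw [h0, Nat.cast_zero, zero_mul] at hNh
      linarith
    · exact_mod_cast h0
  have hNc : (N : ℂ) ≠ 0 := by exact_mod_cast hN.ne'
  have hpi := Real.pi_pos
  have hcell : ∀ j ∈ Finset.range n, ‖f (a + π * (2 * (j : ℂ) + 1) / N) -
      N / (2 * π) * ((∫ x in (2 * π * j / N)..(2 * π * (j + 1 : ℕ) / N), f (a + x)) -
      (Dd h N f (a + 2 * π * (j + 1 : ℕ) / N) - Dd h N f (a + 2 * π * j / N)))‖ ≤
      4 * C * Real.exp (-(N * h)) := by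
    intro j hj
    rw [Finset.mem_range] at hj
    have hm : (a + π * (2 * (j : ℂ) + 1) / N) = a + ((π * (2 * j + 1) / N : ℝ) : ℂ) := by
      push_cast
      rfl
    have key := cell_bound (N := N) hN hh hC hNh (a + π * (2 * (j : ℂ) + 1) / N) f (by
      intro u h1 h2
      rw [hm, Complex.add_re, Complex.ofReal_re, abs_le] at h1
      rw [hm, Complex.add_im, Complex.ofReal_im, add_zero] at h2
      have e1 : π * (2 * j + 1) / N - π / N = 2 * π * j / N := by ring
      have e2 : π * (2 * j + 1) / N + π / N = 2 * π * (j + 1) / N := by ring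
      have e3 : 2 * π * (j + 1) / N ≤ 2 * π * n / N := by
        apply div_le_div_of_nonneg_right _ hN.le
        have : ((j : ℝ) + 1) ≤ n := by exact_mod_cast hj
        nlinarith
      have e4 : 0 ≤ 2 * π * j / N := by positivity
      apply hf u _ _ h2
      · linarith [h1.1]
      · linarith [h1.2])
    have i1 : (∫ x in (-(π / N))..(π / N), f (a + π * (2 * (j : ℂ) + 1) / N + x)) =
        ∫ x in (2 * π * j / N)..(2 * π * (j + 1 : ℕ) / N), f (a + x) := by
      have := intervalIntegral.integral_comp_add_right (a := -(π / N)) (b := π / N)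
        (fun x : ℝ => f (a + x)) (π * (2 * j + 1) / N)
      have e1 : -(π / N) + π * (2 * j + 1) / N = 2 * π * j / N := by ring
      have e2 : π / N + π * (2 * j + 1) / N = 2 * π * (j + 1 : ℕ) / N := by
        push_cast
        ring
      rw [e1, e2] at this
      rw [← this]
      apply intervalIntegral.integral_congr
      intro x _
      show f (a + π * (2 * (j : ℂ) + 1) / N + x) = f (a + ((x + π * (2 * j + 1) / N : ℝ) : ℂ))
      congr 1
      push_cast
      ring
    have i2 : a + π * (2 * (j : ℂ) + 1) / N + ((π / N : ℝ) : ℂ) = a + 2 * π * (j + 1 : ℕ) / N := by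
      push_cast
      ring
    have i3 : a + π * (2 * (j : ℂ) + 1) / N + ((-(π / N) : ℝ) : ℂ) = a + 2 * π * j / N := by
      push_cast
      ring
    rw [i1, i2, i3] at key
    exact key
  have hint : ∀ j ∈ Finset.range n, IntervalIntegrable (fun x : ℝ => f (a + x)) volume
      (2 * π * j / N) (2 * π * (j + 1 : ℕ) / N) := by
    intro j hj
    rw [Finset.mem_range] at hj
    apply ContinuousOn.intervalIntegrable
    intro x hx
    have hle : 2 * π * (j : ℝ) / N ≤ 2 * π * ((j + 1 : ℕ) : ℝ) / N := by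
      apply div_le_div_of_nonneg_right _ hN.le
      push_cast
      nlinarith
    rw [uIcc_of_le hle] at hx
    have e3 : 2 * π * ((j + 1 : ℕ) : ℝ) / N ≤ 2 * π * n / N := by
      apply div_le_div_of_nonneg_right _ hN.le
      have : (((j + 1 : ℕ) : ℝ)) ≤ n := by exact_mod_cast hj
      nlinarith
    have e4 : 0 ≤ 2 * π * (j : ℝ) / N := by positivity
    have h1 : DifferentiableAt ℂ f (a + x) := by
      apply (hf _ _ _ _).1
      · rw [Complex.add_re, Complex.ofReal_re]; linarith [hx.1]
      · rw [Complex.add_re, Complex.ofReal_re]; linarith [hx.2]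
      · rw [Complex.add_im, Complex.ofReal_im, add_zero, sub_self, abs_zero]; exact hh.le
    exact (ContinuousAt.comp (g := f) (f := fun x : ℝ => a + (x : ℂ)) h1.continuousAt
      (by fun_prop)).continuousWithinAt
  have hI : (∫ x in (0:ℝ)..(2 * π * n / N), f (a + x)) = ∑ j ∈ Finset.range n,
      ∫ x in (2 * π * j / N)..(2 * π * (j + 1 : ℕ) / N), f (a + x) := by
    have := intervalIntegral.sum_integral_adjacent_intervals (f := fun x : ℝ => f (a + x))
      (a := fun j : ℕ => 2 * π * (j : ℝ) / N) (n := n) (μ := volume)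
      (fun j hj => hint j (Finset.mem_range.2 hj))
    rw [this]
    simp
  have hD : Dd h N f (a + 2 * π * n / N) - Dd h N f a = ∑ j ∈ Finset.range n,
      (Dd h N f (a + 2 * π * (j + 1 : ℕ) / N) - Dd h N f (a + 2 * π * j / N)) := by
    have := Finset.sum_range_sub (fun j : ℕ => Dd h N f (a + 2 * π * (j : ℂ) / N)) n
    simp only [Nat.cast_zero, mul_zero, zero_div, add_zero] at this
    rw [← this]
  rw [hI, hD, ← Finset.sum_sub_distrib, Finset.mul_sum, ← Finset.sum_sub_distrib]
  refine (norm_sum_le _ _).trans ((Finset.sum_le_sum hcell).trans ?_)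
  rw [Finset.sum_const, Finset.card_range, nsmul_eq_mul]
  exact le_of_eq (by ring)

end Pool.Agent.Y954.CG
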