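import Pool.Agent.Y472.G.Defs
import Pool.Agent.Y954.CG.Sum

/-! MPZ: midpoint sums of analytic functions. -/

set_option autoImplicit false

namespace Pool.Agent.Y954.CG

theorem mpz : Pool.Agent.Y472.S_MPZ := by
  intro h C N n a f hh hC hNh hf
  exact sum_bound h C N n a f hh hC hNh hf

end Pool.Agent.Y954.CG
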