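import Mathlib

/-! Midpoint sums of analytic functions: one cell. -/

set_option autoImplicit false

namespace Pool.Agent.Y954.CG

open Filter Topology Metric Set MeasureTheory
open scoped Real Interval

/-- end correction of the midpoint sums -/
noncomputable def Dd (h : ℝ) (N : ℝ) (f : ℂ → ℂ) (u : ℂ) : ℂ :=
  Complex.I * ∫ y in (0:ℝ)..h,
    (f (u - y * Complex.I) - f (u + y * Complex.I)) / (1 + Real.exp (N * y) : ℝ)

/-- the exponential -/
noncomputable def ee (N : ℝ) (w : ℂ) : ℂ := Complex.exp (Complex.I * N * w)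

theorem ee_zero (N : ℝ) : ee N 0 = 1 := by
  unfold ee
  rw [mul_zero, Complex.exp_zero]

theorem ee_norm (N : ℝ) (w : ℂ) : ‖ee N w‖ = Real.exp (-(N * w.im)) := by
  unfold ee
  rw [Complex.norm_exp]
  congr 1
  simp

theorem ee_ne {N : ℝ} (hN : 0 < N) {w : ℂ} (hw : |w.re| ≤ π / N) (h0 : w ≠ 0) :
    1 - ee N w ≠ 0 := by
  intro h
  have h1 : Complex.exp (Complex.I * N * w) = 1 := by
    have : ee N w = 1 := by linear_combination -h
    exact this
  rw [Complex.exp_eq_one_iff] at h1
  obtain ⟨n, hn⟩ := h1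
  have hNc : (N : ℂ) ≠ 0 := by exact_mod_cast hN.ne'
  have h2 : w = ((2 * π * n / N : ℝ) : ℂ) := by
    have h3 : (N : ℂ) * w = n * (2 * π) := by
      have h4 : Complex.I * (N * w) = Complex.I * (n * (2 * π)) := by
        rw [← mul_assoc, hn]
        ring
      exact mul_left_cancel₀ Complex.I_ne_zero h4
    push_cast
    field_simp
    rw [mul_comm, h3]
    ring
  have h3 : w.re = 2 * π * n / N := by
    rw [h2, Complex.ofReal_re]
  rw [h3, abs_div, abs_of_pos hN, div_le_div_iff_of_pos_right hN] at hw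
  have h4 : n = 0 := by
    by_contra hne
    have h5 : (1 : ℝ) ≤ |(n : ℝ)| := by
      have : (1 : ℤ) ≤ |n| := Int.one_le_abs hne
      exact_mod_cast this
    rw [abs_mul, abs_of_pos (by positivity : (0 : ℝ) < 2 * π)] at hw
    nlinarith [Real.pi_pos]
  apply h0
  rw [h2, h4]
  simp

theorem ee_deriv (N : ℝ) (w : ℂ) : HasDerivAt (ee N) (Complex.I * N * ee N w) w := by
  unfold ee
  have h1 : HasDerivAt (fun w : ℂ => Complex.I * N * w) (Complex.I * N) w := by
    simpa using (hasDerivAt_id w).const_mul (Complex.I * (N : ℂ))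
  exact h1.cexp.congr_deriv (mul_comm _ _)

theorem ee_cont (N : ℝ) : Continuous (ee N) := by
  unfold ee
  fun_prop

/-- at the ends of the cell -/
theorem ee_end {N : ℝ} (hN : 0 < N) (y : ℝ) :
    ee N ((π / N : ℝ) + y * Complex.I) = -(Real.exp (-(N * y)) : ℝ) ∧
      ee N ((-(π / N) : ℝ) + y * Complex.I) = -(Real.exp (-(N * y)) : ℝ) := by
  have hNc : (N : ℂ) ≠ 0 := by exact_mod_cast hN.ne'
  unfold ee
  constructor
  · have : Complex.I * N * (((π / N : ℝ) : ℂ) + y * Complex.I) = π * Complex.I + ((-(N * y) : ℝ) : ℂ) := by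
      push_cast
      field_simp
      linear_combination (N : ℂ) * y * Complex.I_sq
    rw [this, Complex.exp_add, Complex.exp_pi_mul_I, Complex.ofReal_exp]
    ring
  · have : Complex.I * N * (((-(π / N) : ℝ) : ℂ) + y * Complex.I) = -(π * Complex.I) + ((-(N * y) : ℝ) : ℂ) := by
      push_cast
      field_simp
      linear_combination (N : ℂ) * y * Complex.I_sq
    rw [this, Complex.exp_add, Complex.exp_neg, Complex.exp_pi_mul_I, Complex.ofReal_exp]
    ring

/-- the mean of `e / (1 - e)` on the top side vanishes -/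
theorem mean_top {N h : ℝ} (hN : 0 < N) (hh : 0 < h) :
    ∫ x in (-(π / N))..(π / N), ee N (x + h * Complex.I) / (1 - ee N (x + h * Complex.I)) = 0 := by
  have hNc : (N : ℂ) ≠ 0 := by exact_mod_cast hN.ne'
  have hr : Real.exp (-(N * h)) < 1 := by
    rw [Real.exp_lt_one_iff]
    have := mul_pos hN hh
    linarith
  have hsl : ∀ x : ℝ, 1 - ee N (x + h * Complex.I) ∈ Complex.slitPlane := by
    intro x
    left
    have h1 : (ee N (x + h * Complex.I)).re ≤ ‖ee N (x + h * Complex.I)‖ := Complex.re_le_norm _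
    rw [ee_norm] at h1
    simp only [Complex.add_im, Complex.ofReal_im, Complex.mul_im, Complex.ofReal_re, Complex.I_im,
      Complex.I_re, mul_one, mul_zero, add_zero, zero_add] at h1
    rw [Complex.sub_re, Complex.one_re]
    linarith
  have hne : ∀ x : ℝ, 1 - ee N (x + h * Complex.I) ≠ 0 := fun x => Complex.slitPlane_ne_zero (hsl x)
  have hd : ∀ x : ℝ, HasDerivAt
      (fun x : ℝ => -(Complex.log (1 - ee N (x + h * Complex.I)) / (Complex.I * N)))
      (ee N (x + h * Complex.I) / (1 - ee N (x + h * Complex.I))) x := by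
    intro x
    have h1 : HasDerivAt (fun w : ℂ => 1 - ee N (w + h * Complex.I))
        (-(Complex.I * N * ee N (x + h * Complex.I))) (x : ℂ) := by
      have h2 := (ee_deriv N ((x : ℂ) + h * Complex.I)).comp_add_const (x : ℂ) (h * Complex.I)
      exact h2.const_sub 1
    have h3 := (h1.clog (hsl x)).comp_ofReal
    have h4 := (h3.div_const (Complex.I * N)).neg
    have hI : Complex.I * (N : ℂ) ≠ 0 := mul_ne_zero Complex.I_ne_zero hNc
    have e1 : ee N (x + h * Complex.I) / (1 - ee N (x + h * Complex.I)) =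
        -(-(Complex.I * N * ee N (x + h * Complex.I)) / (1 - ee N (x + h * Complex.I)) /
          (Complex.I * N)) := by
      have h5 := hne x
      generalize ee N (x + h * Complex.I) = t at *
      field_simp
    rw [e1]
    exact h4
  rw [intervalIntegral.integral_eq_sub_of_hasDerivAt (fun x _ => hd x)]
  · rw [(ee_end hN h).1, (ee_end hN h).2]
    ring
  · apply Continuous.intervalIntegrable
    have : Continuous fun x : ℝ => ee N ((x : ℂ) + h * Complex.I) := (ee_cont N).comp (by fun_prop)
    exact this.div (continuous_const.sub this) hne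

/-- the vertical sides -/
theorem vert {N h : ℝ} (hh : 0 < h) (G : ℝ → ℂ) (hG : ContinuousOn G (Icc (-h) h)) :
    (∫ y in (0:ℝ)..h, G y) - ∫ y in (-h)..h, G y * (1 / (1 + Real.exp (-(N * y)) : ℝ)) =
      -∫ y in (0:ℝ)..h, (G (-y) - G y) / (1 + Real.exp (N * y) : ℝ) := by
  have hp : ∀ x : ℝ, (1 + Real.exp x : ℝ) ≠ 0 := fun x => by positivity
  have hpc : ∀ x : ℝ, ((1 + Real.exp x : ℝ) : ℂ) ≠ 0 := fun x => by exact_mod_cast hp x
  have hk : ∀ c : ℝ, Continuous fun y : ℝ => ((1 + Real.exp (c * y) : ℝ) : ℂ) := by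
    intro c
    fun_prop
  have hk' : Continuous fun y : ℝ => ((1 + Real.exp (-(N * y)) : ℝ) : ℂ) := by
    fun_prop
  have hGk : ContinuousOn (fun y => G y * (1 / (1 + Real.exp (-(N * y)) : ℝ))) (Icc (-h) h) :=
    hG.mul (continuousOn_const.div hk'.continuousOn fun y _ => hpc _)
  have hint : ∀ a b : ℝ, a ∈ Icc (-h) h → b ∈ Icc (-h) h → IntervalIntegrable
      (fun y => G y * (1 / (1 + Real.exp (-(N * y)) : ℝ))) volume a b := by
    intro a b ha hb
    apply ContinuousOn.intervalIntegrable
    exact hGk.mono (uIcc_subset_Icc ha hb)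
  have hintG : IntervalIntegrable G volume 0 h := by
    apply ContinuousOn.intervalIntegrable
    exact hG.mono (uIcc_subset_Icc ⟨by linarith, hh.le⟩ ⟨by linarith, le_refl h⟩)
  have h0 : (0 : ℝ) ∈ Icc (-h) h := ⟨by linarith, hh.le⟩
  have h1 : h ∈ Icc (-h) h := ⟨by linarith, le_refl h⟩
  have h2 : -h ∈ Icc (-h) h := ⟨le_refl _, by linarith⟩
  rw [← intervalIntegral.integral_add_adjacent_intervals (hint (-h) 0 h2 h0) (hint 0 h h0 h1)]
  have e1 : ∫ y in (-h)..0, G y * (1 / (1 + Real.exp (-(N * y)) : ℝ)) =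
      ∫ y in (0:ℝ)..h, G (-y) * (1 / (1 + Real.exp (N * y) : ℝ)) := by
    have := intervalIntegral.integral_comp_neg (a := 0) (b := h)
      (fun y => G y * (1 / (1 + Real.exp (-(N * y)) : ℝ)))
    rw [neg_zero] at this
    rw [← this]
    apply intervalIntegral.integral_congr
    intro y _
    simp only [mul_neg, neg_neg]
  have hi3 : IntervalIntegrable (fun y => G (-y) * (1 / (1 + Real.exp (N * y) : ℝ))) volume 0 h := by
    apply ContinuousOn.intervalIntegrable
    rw [uIcc_of_le hh.le]
    apply ContinuousOn.mul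
    · apply hG.comp continuous_neg.continuousOn
      intro y hy
      exact ⟨by linarith [hy.2], by linarith [hy.1]⟩
    · exact continuousOn_const.div (hk N).continuousOn fun y _ => hpc _
  rw [e1, ← intervalIntegral.integral_neg, ← sub_sub,
    sub_right_comm, ← intervalIntegral.integral_sub hintG (hint 0 h h0 h1),
    ← intervalIntegral.integral_sub (hintG.sub (hint 0 h h0 h1)) hi3]
  apply intervalIntegral.integral_congr
  intro y _
  have e2 : Real.exp (-(N * y)) = (Real.exp (N * y))⁻¹ := Real.exp_neg _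
  have e3 : (Real.exp (N * y)) ≠ 0 := (Real.exp_pos _).ne'
  have e4 := hp (N * y)
  have e5 := hp (-(N * y))
  have e6 : (1 / (1 + Real.exp (-(N * y)) : ℝ) : ℂ) = 1 - 1 / (1 + Real.exp (N * y) : ℝ) := by
    have : (1 / (1 + Real.exp (-(N * y))) : ℝ) = 1 - 1 / (1 + Real.exp (N * y)) := by
      rw [e2] at e5 ⊢
      generalize Real.exp (N * y) = t at *
      have e7 : 1 + t⁻¹ = (1 + t) / t := by
        field_simp
        ring
      rw [e7, one_div_div, eq_sub_iff_add_eq, ← add_div, add_comm t 1, div_self e4]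
    exact_mod_cast this
  show G y - G y * (1 / (1 + Real.exp (-(N * y)) : ℝ)) - G (-y) * (1 / (1 + Real.exp (N * y) : ℝ)) =
    -((G (-y) - G y) / (1 + Real.exp (N * y) : ℝ))
  rw [e6]
  ring

/-- the exact formula for one cell -/
theorem cell_eq {N h : ℝ} (hN : 0 < N) (hh : 0 < h) (m : ℂ) (f : ℂ → ℂ)
    (hf : ∀ u : ℂ, |u.re - m.re| ≤ π / N → |u.im - m.im| ≤ h → DifferentiableAt ℂ f u) :
    f m - N / (2 * π) * ((∫ x in (-(π / N))..(π / N), f (m + x)) -
      (Dd h N f (m + (π / N : ℝ)) - Dd h N f (m + (-(π / N) : ℝ)))) =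
    N / (2 * π) * ((∫ x in (-(π / N))..(π / N), f (m + (x + h * Complex.I)) *
      (ee N (x + h * Complex.I) / (1 - ee N (x + h * Complex.I)))) -
      ∫ x in (-(π / N))..(π / N), f (m + (x + (-h : ℝ) * Complex.I)) *
        (1 / (1 - ee N (x + (-h : ℝ) * Complex.I)))) := by
  obtain ⟨L, hL⟩ : ∃ L : ℝ, L = π / N := ⟨_, rfl⟩
  have hL0 : 0 < L := by rw [hL]; exact div_pos Real.pi_pos hN
  rw [← hL]
  rw [← hL] at hf
  obtain ⟨F, hF⟩ : ∃ F : ℂ → ℂ, F = fun w => f (m + w) := ⟨_, rfl⟩
  obtain ⟨den, hden⟩ : ∃ den : ℂ → ℂ, den = fun w => 1 - ee N w := ⟨_, rfl⟩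
  have hNc : (N : ℂ) ≠ 0 := by exact_mod_cast hN.ne'
  have hFd : ∀ w : ℂ, |w.re| ≤ L → |w.im| ≤ h → DifferentiableAt ℂ F w := by
    intro w h1 h2
    rw [hF]
    have h3 : DifferentiableAt ℂ f (m + w) := by
      apply hf
      · rw [Complex.add_re, add_sub_cancel_left]; exact h1
      · rw [Complex.add_im, add_sub_cancel_left]; exact h2
    exact h3.comp w (by fun_prop)
  have hFc : ∀ w : ℂ, |w.re| ≤ L → |w.im| ≤ h → ContinuousAt F w := fun w h1 h2 =>
    (hFd w h1 h2).continuousAt
  have hdd : ∀ w : ℂ, HasDerivAt den (-(Complex.I * N * ee N w)) w := by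
    intro w
    rw [hden]
    exact (ee_deriv N w).const_sub 1
  have hd0 : den 0 = 0 := by
    rw [hden]
    show 1 - ee N 0 = 0
    rw [ee_zero, sub_self]
  have hdn : ∀ w : ℂ, |w.re| ≤ L → w ≠ 0 → den w ≠ 0 := by
    intro w h1 h2
    rw [hden]
    rw [hL] at h1
    exact ee_ne hN h1 h2
  have hdc : Continuous den := by
    rw [hden]
    exact continuous_const.sub (ee_cont N)
  -- the quotient of slopes
  obtain ⟨g, hg⟩ : ∃ g : ℂ → ℂ, g = fun w => dslope F 0 w / dslope den 0 w := ⟨_, rfl⟩
  have hgv : ∀ w : ℂ, |w.re| ≤ L → w ≠ 0 → g w = F w * (1 / den w) - F 0 * (1 / den w) := by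
    intro w h1 h2
    rw [hg]
    show dslope F 0 w / dslope den 0 w = _
    rw [dslope_of_ne _ h2, dslope_of_ne _ h2, slope_def_field, slope_def_field, hd0, sub_zero,
      sub_zero]
    have h3 := hdn w h1 h2
    field_simp
  have hsn : ∀ w : ℂ, |w.re| ≤ L → dslope den 0 w ≠ 0 := by
    intro w h1
    by_cases h2 : w = 0
    · rw [h2, dslope_same, (hdd 0).deriv, ee_zero, mul_one]
      exact neg_ne_zero.2 (mul_ne_zero Complex.I_ne_zero hNc)
    · rw [dslope_of_ne _ h2, slope_def_field, hd0, sub_zero, sub_zero]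
      exact div_ne_zero (hdn w h1 h2) h2
  have hgc : ∀ w : ℂ, |w.re| ≤ L → |w.im| ≤ h → ContinuousAt g w := by
    intro w h1 h2
    rw [hg]
    apply ContinuousAt.div _ _ (hsn w h1)
    · by_cases h3 : w = 0
      · rw [h3, continuousAt_dslope_same]
        exact hFd 0 (by simp [hL0.le]) (by simp [hh.le])
      · rw [continuousAt_dslope_of_ne h3]
        exact hFc w h1 h2
    · by_cases h3 : w = 0
      · rw [h3, continuousAt_dslope_same]
        exact (hdd 0).differentiableAt
      · rw [continuousAt_dslope_of_ne h3]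
        exact hdc.continuousAt
  have hgd : ∀ w : ℂ, |w.re| ≤ L → |w.im| ≤ h → w ≠ 0 → DifferentiableAt ℂ g w := by
    intro w h1 h2 h3
    rw [hg]
    apply DifferentiableAt.fun_div _ _ (hsn w h1)
    · rw [differentiableAt_dslope_of_ne h3]
      exact hFd w h1 h2
    · rw [differentiableAt_dslope_of_ne h3]
      exact (hdd w).differentiableAt
  -- Cauchy
  have hC1 := Complex.integral_boundary_rect_eq_zero_of_differentiable_on_off_countable g
    (⟨-L, -h⟩ : ℂ) (⟨L, h⟩ : ℂ) {0} (countable_singleton _)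
    (by
      intro w hw
      rw [Complex.mem_reProdIm] at hw
      simp only [uIcc_of_le (by linarith : -L ≤ L), uIcc_of_le (by linarith : -h ≤ h)] at hw
      exact (hgc w (abs_le.2 hw.1) (abs_le.2 hw.2)).continuousWithinAt)
    (by
      intro w hw
      obtain ⟨hw1, hw2⟩ := hw
      rw [Complex.mem_reProdIm] at hw1
      simp only [min_eq_left (by linarith : -L ≤ L), max_eq_right (by linarith : -L ≤ L),
        min_eq_left (by linarith : -h ≤ h), max_eq_right (by linarith : -h ≤ h)] at hw1
      exact hgd w (abs_le.2 ⟨hw1.1.1.le, hw1.1.2.le⟩) (abs_le.2 ⟨hw1.2.1.le, hw1.2.2.le⟩) hw2)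
  have hC2 := Complex.integral_boundary_rect_eq_zero_of_differentiableOn F
    (⟨-L, 0⟩ : ℂ) (⟨L, h⟩ : ℂ)
    (by
      intro w hw
      rw [Complex.mem_reProdIm] at hw
      simp only [uIcc_of_le (by linarith : -L ≤ L), uIcc_of_le hh.le] at hw
      exact (hFd w (abs_le.2 hw.1) (abs_le.2 ⟨by linarith [hw.2.1], hw.2.2⟩)).differentiableWithinAt)
  simp only [smul_eq_mul] at hC1 hC2
  -- horizontal sides
  have hor : ∀ e : ℝ, |e| ≤ h → ∀ x ∈ [[-L, L]], |((x : ℂ) + e * Complex.I).re| ≤ L ∧
      |((x : ℂ) + e * Complex.I).im| ≤ h := by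
    intro e he x hx
    rw [uIcc_of_le (by linarith : -L ≤ L)] at hx
    simp only [Complex.add_re, Complex.ofReal_re, Complex.mul_re, Complex.I_re, mul_zero,
      Complex.ofReal_im, Complex.I_im, mul_one, sub_self, add_zero, Complex.add_im,
      Complex.mul_im, zero_add]
    exact ⟨abs_le.2 hx, he⟩
  have hne0 : ∀ e : ℝ, e ≠ 0 → ∀ x : ℝ, (x : ℂ) + e * Complex.I ≠ 0 := by
    intro e he x h0
    have := congrArg Complex.im h0
    simp at this
    exact he this
  have hpath : ∀ e : ℝ, Continuous fun x : ℝ => (x : ℂ) + e * Complex.I := by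
    intro e
    fun_prop
  have hFi : ∀ e : ℝ, |e| ≤ h → ContinuousOn (fun x : ℝ => F (x + e * Complex.I)) [[-L, L]] := by
    intro e he x hx
    have h1 := hor e he x hx
    exact (ContinuousAt.comp (g := F) (f := fun x : ℝ => (x : ℂ) + e * Complex.I)
      (hFc _ h1.1 h1.2) (hpath e).continuousAt).continuousWithinAt
  have hDi : ∀ e : ℝ, e ≠ 0 → |e| ≤ h →
      ContinuousOn (fun x : ℝ => 1 / den (x + e * Complex.I)) [[-L, L]] := by
    intro e he he' x hx
    have h1 := hor e he' x hx
    apply ContinuousWithinAt.div continuousWithinAt_const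
    · exact (hdc.comp (hpath e)).continuousWithinAt
    · exact hdn _ h1.1 (hne0 e he x)
  have hsplit : ∀ e : ℝ, e ≠ 0 → |e| ≤ h → (∫ x in (-L)..L, g (x + e * Complex.I)) =
      (∫ x in (-L)..L, F (x + e * Complex.I) * (1 / den (x + e * Complex.I))) -
        F 0 * ∫ x in (-L)..L, 1 / den (x + e * Complex.I) := by
    intro e he he'
    rw [← intervalIntegral.integral_const_mul, ← intervalIntegral.integral_sub]
    · apply intervalIntegral.integral_congr
      intro x hx
      exact hgv _ (hor e he' x hx).1 (hne0 e he x)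
    · exact ((hFi e he').mul (hDi e he he')).intervalIntegrable
    · exact (continuousOn_const.mul (hDi e he he')).intervalIntegrable
  have hPne : ∀ x ∈ [[-L, L]], den ((x : ℂ) + h * Complex.I) ≠ 0 := fun x hx =>
    hdn _ (hor h (by rw [abs_of_pos hh]) x hx).1 (hne0 h hh.ne' x)
  have hPc : ContinuousOn (fun x : ℝ => ee N (x + h * Complex.I) / (1 - ee N (x + h * Complex.I)))
      [[-L, L]] := by
    intro x hx
    apply ContinuousWithinAt.div
    · exact ((ee_cont N).comp (hpath h)).continuousWithinAt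
    · exact (continuous_const.sub ((ee_cont N).comp (hpath h))).continuousWithinAt
    · have := hPne x hx
      rw [hden] at this
      exact this
  have hmean := mean_top hN hh
  rw [← hL] at hmean
  have hP1 : ∀ x ∈ [[-L, L]], 1 / den ((x : ℂ) + h * Complex.I) =
      1 + ee N (x + h * Complex.I) / (1 - ee N (x + h * Complex.I)) := by
    intro x hx
    have := hPne x hx
    rw [hden] at this ⊢
    simp only at this ⊢
    field_simp
    ring
  have htop : (∫ x in (-L)..L, 1 / den ((x : ℂ) + h * Complex.I)) = 2 * L := by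
    have e1 : (∫ x in (-L)..L, 1 / den ((x : ℂ) + h * Complex.I)) =
        ∫ x in (-L)..L, ((1 : ℂ) + ee N (x + h * Complex.I) / (1 - ee N (x + h * Complex.I))) :=
      intervalIntegral.integral_congr fun x hx => hP1 x hx
    rw [e1, intervalIntegral.integral_add (by simp) hPc.intervalIntegrable, hmean,
      intervalIntegral.integral_const]
    simp
    ring
  have hbot : (∫ x in (-L)..L, 1 / den ((x : ℂ) + (-h : ℝ) * Complex.I)) = 0 := by
    have e1 := intervalIntegral.integral_comp_neg (a := -L) (b := L)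
      (fun x : ℝ => 1 / den ((x : ℂ) + (-h : ℝ) * Complex.I))
    rw [neg_neg] at e1
    rw [← e1]
    have e2 : (∫ x in (-L)..L, 1 / den (((-x : ℝ) : ℂ) + (-h : ℝ) * Complex.I)) =
        ∫ x in (-L)..L, -(ee N (x + h * Complex.I) / (1 - ee N (x + h * Complex.I))) := by
      apply intervalIntegral.integral_congr
      intro x hx
      have h1 := hPne x hx
      rw [hden] at h1 ⊢
      simp only at h1 ⊢
      have h2 : ee N (((-x : ℝ) : ℂ) + (-h : ℝ) * Complex.I) = (ee N (x + h * Complex.I))⁻¹ := by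
        unfold ee
        rw [← Complex.exp_neg]
        congr 1
        push_cast
        ring
      rw [h2]
      have h3 : ee N (x + h * Complex.I) ≠ 0 := Complex.exp_ne_zero _
      generalize ee N (x + h * Complex.I) = t at *
      have h4 : 1 - t⁻¹ ≠ 0 := by
        intro h5
        apply h1
        have h6 : t⁻¹ = 1 := by linear_combination -h5
        have h7 : t = 1 := by rw [← inv_inv t, h6, inv_one]
        rw [h7, sub_self]
      have h8 : 1 - t⁻¹ = -((1 - t) / t) := by
        field_simp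
        ring
      rw [h8]
      field_simp
    rw [e2, intervalIntegral.integral_neg, hmean, neg_zero]
  have hT : (∫ x in (-L)..L, F (x + h * Complex.I) * (1 / den (x + h * Complex.I))) =
      (∫ x in (-L)..L, F (x + h * Complex.I)) + ∫ x in (-L)..L, F (x + h * Complex.I) *
        (ee N (x + h * Complex.I) / (1 - ee N (x + h * Complex.I))) := by
    have hFh := hFi h (by rw [abs_of_pos hh])
    have e1 := intervalIntegral.integral_add (μ := volume) hFh.intervalIntegrable
      (hFh.mul hPc).intervalIntegrable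
    refine Eq.trans ?_ e1
    apply intervalIntegral.integral_congr
    intro x hx
    show F (x + h * Complex.I) * (1 / den (x + h * Complex.I)) = F (x + h * Complex.I) +
      F (x + h * Complex.I) * (ee N (x + h * Complex.I) / (1 - ee N (x + h * Complex.I)))
    rw [hP1 x hx]
    ring
  -- vertical sides
  have hends : ∀ c : ℝ, c = L ∨ c = -L → ∀ y : ℝ, den ((c : ℂ) + y * Complex.I) =
      ((1 + Real.exp (-(N * y)) : ℝ) : ℂ) := by
    intro c hc y
    rw [hden]
    simp only
    rcases hc with rfl | rfl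
    · rw [hL, (ee_end hN y).1]
      push_cast
      ring
    · rw [hL, (ee_end hN y).2]
      push_cast
      ring
  have hcn : ∀ c : ℝ, c = L ∨ c = -L → ∀ y : ℝ, (c : ℂ) + y * Complex.I ≠ 0 := by
    intro c hc y h0
    have := congrArg Complex.re h0
    simp at this
    rcases hc with rfl | rfl
    · exact hL0.ne' this
    · linarith
  have hcr : ∀ c : ℝ, c = L ∨ c = -L → ∀ y : ℝ, |((c : ℂ) + y * Complex.I).re| ≤ L := by
    intro c hc y
    simp only [Complex.add_re, Complex.ofReal_re, Complex.mul_re, Complex.I_re, mul_zero,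
      Complex.ofReal_im, Complex.I_im, mul_one, sub_self, add_zero]
    rcases hc with rfl | rfl
    · rw [abs_of_pos hL0]
    · rw [abs_neg, abs_of_pos hL0]
  have hci : ∀ c : ℝ, ∀ y : ℝ, ((c : ℂ) + y * Complex.I).im = y := by
    intro c y
    simp
  have hGc : ∀ c : ℝ, c = L ∨ c = -L →
      ContinuousOn (fun y : ℝ => F ((c : ℂ) + y * Complex.I)) (Icc (-h) h) := by
    intro c hc y hy
    exact (ContinuousAt.comp (g := F) (f := fun y : ℝ => (c : ℂ) + y * Complex.I)
      (hFc _ (hcr c hc y) (by rw [hci]; exact abs_le.2 hy)) (by fun_prop)).continuousWithinAt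
  have hKc : Continuous fun y : ℝ => (1 / ((1 + Real.exp (-(N * y)) : ℝ) : ℂ)) := by
    apply Continuous.div continuous_const (by fun_prop)
    intro y
    have : (1 + Real.exp (-(N * y)) : ℝ) ≠ 0 := by positivity
    exact_mod_cast this
  have hvs : ∀ c : ℝ, c = L ∨ c = -L → (∫ y in (-h)..h, g (c + y * Complex.I)) =
      (∫ y in (-h)..h, F (c + y * Complex.I) * (1 / (1 + Real.exp (-(N * y)) : ℝ))) -
        F 0 * ∫ y in (-h)..h, (1 / (1 + Real.exp (-(N * y)) : ℝ) : ℂ) := by
    intro c hc
    rw [← intervalIntegral.integral_const_mul, ← intervalIntegral.integral_sub]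
    · apply intervalIntegral.integral_congr
      intro y hy
      show g (c + y * Complex.I) = _
      rw [hgv _ (hcr c hc y) (hcn c hc y), hends c hc y]
    · apply ContinuousOn.intervalIntegrable
      rw [uIcc_of_le (by linarith : -h ≤ h)]
      exact (hGc c hc).mul hKc.continuousOn
    · exact (continuous_const.mul hKc).intervalIntegrable _ _
  have hDv : ∀ c : ℝ, c = L ∨ c = -L →
      Complex.I * (∫ y in (0:ℝ)..h, F (c + y * Complex.I)) -
      Complex.I * (∫ y in (-h)..h, F (c + y * Complex.I) * (1 / (1 + Real.exp (-(N * y)) : ℝ))) =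
        -Dd h N f (m + c) := by
    intro c hc
    rw [← mul_sub, vert hh _ (hGc c hc)]
    unfold Dd
    rw [mul_neg]
    congr 2
    apply intervalIntegral.integral_congr
    intro y _
    rw [hF]
    simp only
    congr 3
    · push_cast
      ring
    · ring
  have v1 := hDv L (Or.inl rfl)
  have v2 := hDv (-L) (Or.inr rfl)
  rw [hsplit (-h) (by linarith) (by rw [abs_neg, abs_of_pos hh]),
    hsplit h hh.ne' (by rw [abs_of_pos hh]), hvs L (Or.inl rfl), hvs (-L) (Or.inr rfl), htop, hbot,
    hT] at hC1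
  have hF0 : F 0 = f m := by
    rw [hF]
    simp
  have hFx : ∀ e : ℝ, (∫ x in (-L)..L, F (x + e * Complex.I)) =
      ∫ x in (-L)..L, f (m + (x + e * Complex.I)) := by
    intro e
    rw [hF]
  have hint0 : (∫ x in (-L)..L, F (x + (0 : ℝ) * Complex.I)) = ∫ x in (-L)..L, f (m + x) := by
    rw [hF]
    apply intervalIntegral.integral_congr
    intro x _
    simp
  rw [hint0] at hC2
  have hB : (∫ x in (-L)..L, F (x + (-h : ℝ) * Complex.I) * (1 / den (x + (-h : ℝ) * Complex.I))) =
      ∫ x in (-L)..L, f (m + (x + (-h : ℝ) * Complex.I)) *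
        (1 / (1 - ee N (x + (-h : ℝ) * Complex.I))) := by
    rw [hF, hden]
  have hTT : (∫ x in (-L)..L, F (x + h * Complex.I) *
        (ee N (x + h * Complex.I) / (1 - ee N (x + h * Complex.I)))) =
      ∫ x in (-L)..L, f (m + (x + h * Complex.I)) *
        (ee N (x + h * Complex.I) / (1 - ee N (x + h * Complex.I))) := by
    rw [hF]
  rw [hB, hTT, hF0] at hC1
  have hLc : (L : ℂ) = π / N := by
    rw [hL]
    push_cast
    rfl
  have hpi : (π : ℂ) ≠ 0 := by exact_mod_cast Real.pi_ne_zero
  have key : f m * (2 * L) = (∫ x in (-L)..L, f (m + x)) -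
      (Dd h N f (m + (L : ℝ)) - Dd h N f (m + (-L : ℝ))) +
      ((∫ x in (-L)..L, f (m + (x + h * Complex.I)) *
        (ee N (x + h * Complex.I) / (1 - ee N (x + h * Complex.I)))) -
      ∫ x in (-L)..L, f (m + (x + (-h : ℝ) * Complex.I)) *
        (1 / (1 - ee N (x + (-h : ℝ) * Complex.I)))) := by
    linear_combination hC1 - hC2 + v1 - v2
  have hm : f m = N / (2 * π) * (f m * (2 * L)) := by
    rw [hLc]
    field_simp
  rw [key] at hm
  rw [hm]
  ring

end Pool.Agent.Y954.CG
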